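import Mathlib

/-!
Elementary facts used for the Schmidt rank counterexample (MP_60b600_ag): top homogeneous
components of products, the factorisation dichotomy for 2x2 matrices of quadratic forms of
determinant zero, two anisotropic forms, and existence of isotropic vectors.
-/

namespace Pool.Agent.Q81.SR

open MvPolynomial

section Comp
variable {R : Type*} [CommRing R] {σ : Type*}

lemma hc_mul (m n : ℕ) (f g : MvPolynomial σ R) (hf : f.totalDegree ≤ m)
    (hg : g.totalDegree ≤ n) :
    homogeneousComponent (m + n) (f * g) =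
      homogeneousComponent m f * homogeneousComponent n g := by
  classical
  ext d
  rw [coeff_homogeneousComponent, coeff_mul, coeff_mul]
  have hdeg : ∀ x ∈ Finset.HasAntidiagonal.antidiagonal d,
      x.1.degree + x.2.degree = d.degree := by
    intro x hx
    rw [Finset.HasAntidiagonal.mem_antidiagonal] at hx
    rw [← hx, map_add]
  have hzero : ∀ (p : MvPolynomial σ R) (k : ℕ), p.totalDegree ≤ k → ∀ e : σ →₀ ℕ,
      k < e.degree → coeff e p = 0 := by
    intro p k hp e he
    apply coeff_eq_zero_of_totalDegree_lt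
    rw [Finsupp.degree_apply] at he
    exact lt_of_le_of_lt hp he
  split_ifs with h
  · refine Finset.sum_congr rfl fun x hx => ?_
    have h1 := hdeg x hx
    rw [coeff_homogeneousComponent, coeff_homogeneousComponent]
    by_cases h2 : x.1.degree = m
    · have h3 : x.2.degree = n := by omega
      rw [if_pos h2, if_pos h3]
    · rw [if_neg h2, zero_mul]
      rcases lt_or_gt_of_ne h2 with h3 | h3
      · rw [hzero g n hg x.2 (by omega), mul_zero]
      · rw [hzero f m hf x.1 h3, zero_mul]
  · symm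
    apply Finset.sum_eq_zero
    intro x hx
    have h1 := hdeg x hx
    rw [coeff_homogeneousComponent, coeff_homogeneousComponent]
    by_cases h2 : x.1.degree = m
    · have h3 : x.2.degree ≠ n := by omega
      rw [if_neg h3, mul_zero]
    · rw [if_neg h2, zero_mul]

lemma totalDegree_sub_hc (m : ℕ) (f : MvPolynomial σ R) (hf : f.totalDegree ≤ m + 1)
    (h0 : homogeneousComponent (m + 1) f = 0) : f.totalDegree ≤ m := by
  refine Finset.sup_le fun d hd => ?_
  by_contra hlt
  have h1 : (d.sum fun _ e => e) ≤ f.totalDegree := le_totalDegree hd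
  have h2 : d.degree = m + 1 := by
    rw [Finsupp.degree_apply]
    have h3 : (d.sum fun _ e => e) = ∑ i ∈ d.support, d i := rfl
    omega
  have h4 : coeff d (homogeneousComponent (m + 1) f) = coeff d f := by
    rw [coeff_homogeneousComponent, if_pos h2]
  rw [h0, coeff_zero] at h4
  exact (mem_support_iff.mp hd) h4.symm

/-- A polynomial of total degree at most one is an affine form. -/
lemma affine_form {n : ℕ} (f : MvPolynomial (Fin n) R) (hf : f.totalDegree ≤ 1) :
    ∃ (c : R) (a : Fin n → R), f = C c + ∑ i, C (a i) * X i := by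
  classical
  refine ⟨coeff 0 f, fun i => coeff (Finsupp.single i 1) f, ?_⟩
  ext d
  rw [coeff_add, coeff_C, coeff_sum]
  simp only [coeff_C_mul, coeff_X]
  by_cases h0 : d = 0
  · subst h0
    rw [if_pos rfl, Finset.sum_eq_zero, add_zero]
    intro i _
    rw [if_neg, mul_zero]
    intro h
    have := congrArg (fun e => e i) h
    simp at this
  · rw [if_neg (Ne.symm h0), zero_add]
    by_cases h1 : d.degree = 1
    · obtain ⟨i, hi⟩ : ∃ i, d = Finsupp.single i 1 := by
        obtain ⟨i, hi⟩ : ∃ i, d i ≠ 0 := by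
          by_contra hcon
          push Not at hcon
          exact h0 (Finsupp.ext hcon)
        refine ⟨i, ?_⟩
        have h2 : d.degree = ∑ j, d j := by
          rw [Finsupp.degree_eq_sum]
        have h3 : d i + ∑ j ∈ Finset.univ.erase i, d j = 1 := by
          rw [Finset.add_sum_erase _ _ (Finset.mem_univ i), ← h2, h1]
        have h4 : ∑ j ∈ Finset.univ.erase i, d j = 0 := by omega
        have h5 : d i = 1 := by omega
        ext j
        by_cases hj : j = i
        · subst hj; simp [h5]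
        · rw [Finset.sum_eq_zero_iff] at h4
          rw [h4 j (by simp [hj]), Finsupp.single_apply, if_neg (Ne.symm hj)]
      subst hi
      rw [Finset.sum_eq_single i]
      · simp
      · intro j _ hj
        rw [if_neg, mul_zero]
        intro h
        rw [Finsupp.single_left_inj one_ne_zero] at h
        exact hj h
      · simp
    · have h2 : coeff d f = 0 := by
        apply coeff_eq_zero_of_totalDegree_lt
        have h3 : d.degree ≠ 0 := by
          rwa [Ne, Finsupp.degree_eq_zero_iff]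
        rw [Finsupp.degree_apply] at h3 h1
        omega
      rw [h2, Finset.sum_eq_zero]
      intro i _
      rw [if_neg, mul_zero]
      rintro rfl
      simp at h1

/-- The substitution by polynomials of total degree at most one does not raise total degrees. -/
lemma totalDegree_aeval_le {τ : Type*} [Fintype σ] (g : σ → MvPolynomial τ R)
    (hg : ∀ i, (g i).totalDegree ≤ 1) (f : MvPolynomial σ R) :
    (aeval g f).totalDegree ≤ f.totalDegree := by
  rw [aeval_def, eval₂_eq']
  refine (totalDegree_finsetSum _ _).trans (Finset.sup_le fun d hd => ?_)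
  refine (totalDegree_mul _ _).trans ?_
  rw [show (algebraMap R (MvPolynomial τ R)) (coeff d f) = C (coeff d f) from rfl,
    totalDegree_C, zero_add]
  refine (totalDegree_finsetProd _ _).trans ?_
  refine le_trans (Finset.sum_le_sum (g := fun i => d i) fun i _ => ?_) ?_
  · refine (totalDegree_pow _ _).trans ?_
    calc d i * (g i).totalDegree ≤ d i * 1 := Nat.mul_le_mul_left _ (hg i)
      _ = d i := mul_one _
  · have h1 := le_totalDegree hd
    rwa [Finsupp.sum_fintype _ _ (fun _ => rfl)] at h1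

lemma natDegree_aeval_le [Fintype σ] (g : σ → Polynomial R)
    (hg : ∀ i, (g i).natDegree ≤ 1) (f : MvPolynomial σ R) :
    (aeval g f).natDegree ≤ f.totalDegree := by
  rw [aeval_def, eval₂_eq']
  refine Polynomial.natDegree_sum_le_of_forall_le _ _ fun d hd => ?_
  refine (Polynomial.natDegree_C_mul_le _ _).trans ?_
  refine (Polynomial.natDegree_prod_le _ _).trans ?_
  refine le_trans (Finset.sum_le_sum (g := fun i => d i) fun i _ => ?_) ?_
  · refine (Polynomial.natDegree_pow_le).trans ?_
    calc d i * (g i).natDegree ≤ d i * 1 := Nat.mul_le_mul_left _ (hg i)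
      _ = d i := mul_one _
  · have h1 := le_totalDegree hd
    rwa [Finsupp.sum_fintype _ _ (fun _ => rfl)] at h1

end Comp

section Four
variable {K : Type*} [Field K] {n : ℕ}

/-- Matrices `[A C; D B]` of quadratic forms with `A B = C D`. -/
lemma four {A B E D : MvPolynomial (Fin n) K} (hA : A.IsHomogeneous 2) (hB : B.IsHomogeneous 2)
    (hE : E.IsHomogeneous 2) (hD : D.IsHomogeneous 2) (h : A * B = E * D) :
    (∃ l : K, (A = C l * D ∧ E = C l * B) ∨ (D = C l * A ∧ B = C l * E)) ∨
    (∃ l : K, (A = C l * E ∧ D = C l * B) ∨ (E = C l * A ∧ B = C l * D)) ∨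
    ∃ a b c d : MvPolynomial (Fin n) K, a.IsHomogeneous 1 ∧ b.IsHomogeneous 1 ∧
      c.IsHomogeneous 1 ∧ d.IsHomogeneous 1 ∧ A = a * b ∧ E = a * c ∧ D = d * b ∧ B = d * c := by
  by_cases hA0 : A = 0
  · rw [hA0, zero_mul] at h
    rcases mul_eq_zero.mp h.symm with h1 | h1
    · left
      exact ⟨0, Or.inl ⟨by simp [hA0], by simp [h1]⟩⟩
    · right; left
      exact ⟨0, Or.inl ⟨by simp [hA0], by simp [h1]⟩⟩
  · obtain ⟨a, b, ⟨c, hc⟩, ⟨d, hd⟩, hab⟩ := exists_dvd_and_dvd_of_dvd_mul (Dvd.intro B h)
    have hA2 : A.totalDegree = 2 := hA.totalDegree hA0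
    have ha0 : a ≠ 0 := by rintro rfl; simp at hab; exact hA0 hab
    have hb0 : b ≠ 0 := by rintro rfl; simp at hab; exact hA0 hab
    have hBcd : B = c * d := by
      have h1 : (a * b) * B = (a * b) * (c * d) := by
        rw [← hab, h, hc, hd, hab]; ring
      exact mul_left_cancel₀ (mul_ne_zero ha0 hb0) h1
    have htab : a.totalDegree + b.totalDegree = 2 := by
      rw [← totalDegree_mul_of_isDomain ha0 hb0, ← hab, hA2]
    have htc : c.totalDegree + a.totalDegree ≤ 2 ∨ c = 0 := by
      by_cases hc0 : c = 0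
      · exact Or.inr hc0
      · left
        have h2 := totalDegree_mul_of_isDomain ha0 hc0
        rw [← hc] at h2
        have h3 := hE.totalDegree_le
        omega
    have htd : d.totalDegree + b.totalDegree ≤ 2 ∨ d = 0 := by
      by_cases hd0 : d = 0
      · exact Or.inr hd0
      · left
        have h2 := totalDegree_mul_of_isDomain hb0 hd0
        rw [← hd] at h2
        have h3 := hD.totalDegree_le
        omega
    have hconst : ∀ q : MvPolynomial (Fin n) K, q.totalDegree = 0 → ∃ e, q = C e :=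
      fun q hq => ⟨_, totalDegree_eq_zero_iff_eq_C.mp hq⟩
    have hcase : a.totalDegree = 0 ∨ a.totalDegree = 1 ∨ b.totalDegree = 0 := by omega
    rcases hcase with h0 | h0 | h0
    · left
      obtain ⟨a0, ha⟩ := hconst a h0
      obtain ⟨e, he⟩ : ∃ e, d = C e := by
        rcases htd with h4 | h4
        · exact hconst d (by omega)
        · exact ⟨0, by simp [h4]⟩
      have ha00 : a0 ≠ 0 := by rintro rfl; simp at ha; exact ha0 ha
      have hC : (C (e / a0) : MvPolynomial (Fin n) K) * C a0 = C e := by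
        rw [← C_mul, div_mul_cancel₀ _ ha00]
      refine ⟨e / a0, Or.inr ⟨?_, ?_⟩⟩
      · rw [hd, hab, ha, he, ← mul_assoc, hC]; ring
      · rw [hBcd, hc, ha, he, ← mul_assoc, hC]; ring
    · right; right
      refine ⟨homogeneousComponent 1 a, homogeneousComponent 1 b, homogeneousComponent 1 c,
        homogeneousComponent 1 d, homogeneousComponent_isHomogeneous _ _,
        homogeneousComponent_isHomogeneous _ _, homogeneousComponent_isHomogeneous _ _,
        homogeneousComponent_isHomogeneous _ _, ?_, ?_, ?_, ?_⟩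
      · rw [← hc_mul 1 1 a b (by omega) (by omega), ← hab, homogeneousComponent_of_mem hA]
        simp
      · rw [← hc_mul 1 1 a c (by omega) (by rcases htc with h4 | h4; · omega
                                            · simp [h4]), ← hc,
          homogeneousComponent_of_mem hE]
        simp
      · rw [mul_comm, ← hc_mul 1 1 b d (by omega) (by rcases htd with h4 | h4; · omega
                                                      · simp [h4]), ← hd,
          homogeneousComponent_of_mem hD]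
        simp
      · rw [mul_comm, ← hc_mul 1 1 c d (by rcases htc with h4 | h4; · omega
                                           · simp [h4]) (by rcases htd with h4 | h4; · omega
                                                            · simp [h4]), ← hBcd,
          homogeneousComponent_of_mem hB]
        simp
    · right; left
      obtain ⟨b0, hb⟩ := hconst b h0
      obtain ⟨e, he⟩ : ∃ e, c = C e := by
        rcases htc with h4 | h4
        · exact hconst c (by omega)
        · exact ⟨0, by simp [h4]⟩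
      have hb00 : b0 ≠ 0 := by rintro rfl; simp at hb; exact hb0 hb
      have hC : (C (e / b0) : MvPolynomial (Fin n) K) * C b0 = C e := by
        rw [← C_mul, div_mul_cancel₀ _ hb00]
      refine ⟨e / b0, Or.inr ⟨?_, ?_⟩⟩
      · rw [hc, hab, hb, he]
        linear_combination -a * hC
      · rw [hBcd, hd, hb, he, ← mul_assoc, hC]

end Four

section Aniso

open Polynomial in
lemma aniso_two {R : Type*} [CommRing R] [IsDomain R] {x y : Polynomial R}
    (h : x ^ 2 + Polynomial.X * y ^ 2 = 0) : x = 0 ∧ y = 0 := by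
  have base : ∀ x y : Polynomial R, x ^ 2 + Polynomial.X * y ^ 2 = 0 →
      Polynomial.X ∣ x ∧ Polynomial.X ∣ y := by
    intro x y h
    have h1 : Polynomial.X ∣ x := by
      have : Polynomial.X ∣ x ^ 2 := ⟨-y ^ 2, by linear_combination h⟩
      exact Polynomial.prime_X.dvd_of_dvd_pow this
    obtain ⟨x', rfl⟩ := h1
    refine ⟨Dvd.intro _ rfl, ?_⟩
    have h2 : y ^ 2 = - (Polynomial.X * x' ^ 2) := by
      apply mul_left_cancel₀ Polynomial.X_ne_zero
      linear_combination h
    have : Polynomial.X ∣ y ^ 2 := ⟨-x' ^ 2, by linear_combination h2⟩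
    exact Polynomial.prime_X.dvd_of_dvd_pow this
  have step : ∀ n : ℕ, ∀ x y : Polynomial R, x ^ 2 + Polynomial.X * y ^ 2 = 0 →
      Polynomial.X ^ n ∣ x ∧ Polynomial.X ^ n ∣ y := by
    intro n
    induction n with
    | zero => intro x y _; simp
    | succ n ih =>
      intro x y h
      obtain ⟨⟨x', rfl⟩, ⟨y', rfl⟩⟩ := base x y h
      have h2 : x' ^ 2 + Polynomial.X * y' ^ 2 = 0 := by
        apply mul_left_cancel₀ (pow_ne_zero 2 (Polynomial.X_ne_zero (R := R)))
        linear_combination h
      obtain ⟨h3, h4⟩ := ih x' y' h2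
      rw [pow_succ']
      exact ⟨mul_dvd_mul_left _ h3, mul_dvd_mul_left _ h4⟩
  have fin : ∀ z : Polynomial R, (∀ n : ℕ, Polynomial.X ^ n ∣ z) → z = 0 := by
    intro z hz
    by_contra hz0
    have h1 := Polynomial.natDegree_le_of_dvd (hz (z.natDegree + 1)) hz0
    rw [Polynomial.natDegree_X_pow] at h1
    omega
  exact ⟨fin x fun n => (step n x y h).1, fin y fun n => (step n x y h).2⟩

lemma aniso_three {R : Type*} [CommRing R] [IsDomain R] (c : R)
    (hc : ∀ a b : R, a ^ 2 + c * b ^ 2 = 0 → a = 0 ∧ b = 0) {x y z : Polynomial R}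
    (h : x ^ 2 + Polynomial.C c * y ^ 2 + Polynomial.X * z ^ 2 = 0) : x = 0 ∧ y = 0 ∧ z = 0 := by
  have base : ∀ x y z : Polynomial R, x ^ 2 + Polynomial.C c * y ^ 2 + Polynomial.X * z ^ 2 = 0 →
      Polynomial.X ∣ x ∧ Polynomial.X ∣ y ∧ Polynomial.X ∣ z := by
    intro x y z h
    have h0 := congrArg (Polynomial.eval 0) h
    simp only [Polynomial.eval_add, Polynomial.eval_mul, Polynomial.eval_pow, Polynomial.eval_C,
      Polynomial.eval_X, zero_mul, add_zero, Polynomial.eval_zero] at h0
    obtain ⟨hx, hy⟩ := hc _ _ h0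
    have h1 : Polynomial.X ∣ x := Polynomial.X_dvd_iff.mpr (by rwa [Polynomial.coeff_zero_eq_eval_zero])
    have h2 : Polynomial.X ∣ y := Polynomial.X_dvd_iff.mpr (by rwa [Polynomial.coeff_zero_eq_eval_zero])
    obtain ⟨x', rfl⟩ := h1
    obtain ⟨y', rfl⟩ := h2
    refine ⟨Dvd.intro _ rfl, Dvd.intro _ rfl, ?_⟩
    have h3 : z ^ 2 = - (Polynomial.X * x' ^ 2 + Polynomial.X * Polynomial.C c * y' ^ 2) := by
      apply mul_left_cancel₀ Polynomial.X_ne_zero
      linear_combination h
    have : Polynomial.X ∣ z ^ 2 := ⟨-(x' ^ 2 + Polynomial.C c * y' ^ 2), by linear_combination h3⟩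
    exact Polynomial.prime_X.dvd_of_dvd_pow this
  have step : ∀ n : ℕ, ∀ x y z : Polynomial R,
      x ^ 2 + Polynomial.C c * y ^ 2 + Polynomial.X * z ^ 2 = 0 →
      Polynomial.X ^ n ∣ x ∧ Polynomial.X ^ n ∣ y ∧ Polynomial.X ^ n ∣ z := by
    intro n
    induction n with
    | zero => intro x y z _; simp
    | succ n ih =>
      intro x y z h
      obtain ⟨⟨x', rfl⟩, ⟨y', rfl⟩, ⟨z', rfl⟩⟩ := base x y z h
      have h2 : x' ^ 2 + Polynomial.C c * y' ^ 2 + Polynomial.X * z' ^ 2 = 0 := by
        apply mul_left_cancel₀ (pow_ne_zero 2 (Polynomial.X_ne_zero (R := R)))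
        linear_combination h
      obtain ⟨h3, h4, h5⟩ := ih x' y' z' h2
      rw [pow_succ']
      exact ⟨mul_dvd_mul_left _ h3, mul_dvd_mul_left _ h4, mul_dvd_mul_left _ h5⟩
  have fin : ∀ z : Polynomial R, (∀ n : ℕ, Polynomial.X ^ n ∣ z) → z = 0 := by
    intro z hz
    by_contra hz0
    have h1 := Polynomial.natDegree_le_of_dvd (hz (z.natDegree + 1)) hz0
    rw [Polynomial.natDegree_X_pow] at h1
    omega
  exact ⟨fin x fun n => (step n x y z h).1, fin y fun n => (step n x y z h).2.1,
    fin z fun n => (step n x y z h).2.2⟩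

end Aniso

section Iso
variable {D : Type*} [CommRing D] [IsDomain D]

lemma two_lin (r s : Fin 3 → D) : ∃ v : Fin 3 → D, v ≠ 0 ∧ r ⬝ᵥ v = 0 ∧ s ⬝ᵥ v = 0 := by
  have hdet : (Matrix.of ![r, s, 0]).det = 0 := by
    apply Matrix.det_eq_zero_of_row_eq_zero 2
    intro j
    simp
  obtain ⟨v, hv, h⟩ := Matrix.exists_mulVec_eq_zero_iff.mpr hdet
  refine ⟨v, hv, ?_, ?_⟩
  · have := congrFun h 0
    simpa [Matrix.mulVec] using this
  · have := congrFun h 1
    simpa [Matrix.mulVec] using this

/-- The value of `det M₁(v) + [M₀, M₂(v)]` for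
`M₀ = (m11, m12; m21, m22)`, `M₁ = (n11, n12; n21, n22)`, `M₂ = (ab, ac; db, dc)`. -/
def W (m11 m12 m21 m22 n11 n12 n21 n22 a b c d : D) : D :=
  (n11 * n22 - n12 * n21) + (m11 * (d * c) + m22 * (a * b) - m12 * (d * b) - m21 * (a * c))

lemma iso_aux (m11 m12 m21 m22 : D) (n11 n12 n21 n22 a b c d : Fin 3 → D) (hm : m11 ≠ 0)
    (h0 : m11 * m22 = m12 * m21)
    (h1 : ∀ v : Fin 3 → D, m11 * (n22 ⬝ᵥ v) + m22 * (n11 ⬝ᵥ v) - m12 * (n21 ⬝ᵥ v) -
      m21 * (n12 ⬝ᵥ v) = 0) :
    ∃ v : Fin 3 → D, v ≠ 0 ∧ W m11 m12 m21 m22 (n11 ⬝ᵥ v) (n12 ⬝ᵥ v) (n21 ⬝ᵥ v) (n22 ⬝ᵥ v)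
      (a ⬝ᵥ v) (b ⬝ᵥ v) (c ⬝ᵥ v) (d ⬝ᵥ v) = 0 := by
  obtain ⟨v, hv, h2, h3⟩ := two_lin (fun i => m21 * a i - m11 * d i)
    (fun i => m12 * n11 i - m11 * n12 i)
  have h4 : m21 * (a ⬝ᵥ v) - m11 * (d ⬝ᵥ v) = 0 := by
    rw [← h2]; simp only [dotProduct, Finset.mul_sum, ← Finset.sum_sub_distrib]
    refine Finset.sum_congr rfl fun i _ => by ring
  have h5 : m12 * (n11 ⬝ᵥ v) - m11 * (n12 ⬝ᵥ v) = 0 := by
    rw [← h3]; simp only [dotProduct, Finset.mul_sum, ← Finset.sum_sub_distrib]
    refine Finset.sum_congr rfl fun i _ => by ring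
  refine ⟨v, hv, ?_⟩
  have h6 := h1 v
  set A := a ⬝ᵥ v
  set B := b ⬝ᵥ v
  set E := c ⬝ᵥ v
  set F := d ⬝ᵥ v
  set N11 := n11 ⬝ᵥ v
  set N12 := n12 ⬝ᵥ v
  set N21 := n21 ⬝ᵥ v
  set N22 := n22 ⬝ᵥ v
  have key : m11 ^ 2 * W m11 m12 m21 m22 N11 N12 N21 N22 A B E F = 0 := by
    unfold W
    have e1 : m11 ^ 2 * (N11 * N22 - N12 * N21) = 0 := by
      linear_combination m11 * N11 * h6 + (m11 * N21 - m21 * N11) * h5 - N11 ^ 2 * h0
    have e2 : m11 * (m11 * (F * E) + m22 * (A * B) - m12 * (F * B) - m21 * (A * E)) = 0 := by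
      linear_combination (m12 * B - m11 * E) * h4 + A * B * h0
    linear_combination e1 + m11 * e2
  exact (mul_eq_zero.mp key).resolve_left (pow_ne_zero 2 hm)

lemma iso (m11 m12 m21 m22 : D) (n11 n12 n21 n22 a b c d : Fin 3 → D)
    (h0 : m11 * m22 = m12 * m21)
    (h1 : ∀ v : Fin 3 → D, m11 * (n22 ⬝ᵥ v) + m22 * (n11 ⬝ᵥ v) - m12 * (n21 ⬝ᵥ v) -
      m21 * (n12 ⬝ᵥ v) = 0) :
    ∃ v : Fin 3 → D, v ≠ 0 ∧ W m11 m12 m21 m22 (n11 ⬝ᵥ v) (n12 ⬝ᵥ v) (n21 ⬝ᵥ v) (n22 ⬝ᵥ v)
      (a ⬝ᵥ v) (b ⬝ᵥ v) (c ⬝ᵥ v) (d ⬝ᵥ v) = 0 := by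
  by_cases h11 : m11 = 0
  · by_cases h12 : m12 = 0
    · by_cases h21 : m21 = 0
      · by_cases h22 : m22 = 0
        · obtain ⟨v, hv, h2, h3⟩ := two_lin n11 n21
          refine ⟨v, hv, ?_⟩
          rw [h11, h12, h21, h22, h2, h3]
          unfold W
          ring
        · obtain ⟨v, hv, h⟩ := iso_aux m22 m21 m12 m11 n22 n21 n12 n11 d c b a h22
            (by linear_combination h0) (fun v => by linear_combination h1 v)
          refine ⟨v, hv, ?_⟩
          unfold W at h ⊢
          linear_combination h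
      · obtain ⟨v, hv, h⟩ := iso_aux m21 m22 m11 m12 n21 n22 n11 n12 d b c a h21
          (by linear_combination -h0) (fun v => by linear_combination -h1 v)
        refine ⟨v, hv, ?_⟩
        unfold W at h ⊢
        linear_combination -h
    · obtain ⟨v, hv, h⟩ := iso_aux m12 m11 m22 m21 n12 n11 n22 n21 a c b d h12
        (by linear_combination -h0) (fun v => by linear_combination -h1 v)
      refine ⟨v, hv, ?_⟩
      unfold W at h ⊢
      linear_combination -h
  · exact iso_aux m11 m12 m21 m22 n11 n12 n21 n22 a b c d h11 h0 h1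

lemma quartic_coeffs [Infinite D] {c0 c1 c2 c3 c4 : D}
    (h : ∀ T : D, c0 + c1 * T + c2 * T ^ 2 + c3 * T ^ 3 + c4 * T ^ 4 = 0) :
    c0 = 0 ∧ c1 = 0 ∧ c2 = 0 := by
  have hp : (Polynomial.C c0 + Polynomial.C c1 * Polynomial.X + Polynomial.C c2 * Polynomial.X ^ 2 +
      Polynomial.C c3 * Polynomial.X ^ 3 + Polynomial.C c4 * Polynomial.X ^ 4 : Polynomial D) = 0 := by
    apply Polynomial.funext
    intro T
    simpa using h T
  refine ⟨?_, ?_, ?_⟩
  · have := congrArg (fun p => Polynomial.coeff p 0) hp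
    simpa using this
  · have := congrArg (fun p => Polynomial.coeff p 1) hp
    simpa [Polynomial.coeff_X_pow, Polynomial.coeff_C] using this
  · have := congrArg (fun p => Polynomial.coeff p 2) hp
    simpa [Polynomial.coeff_X_pow, Polynomial.coeff_C, Polynomial.coeff_X] using this

end Iso

end Pool.Agent.Q81.SR
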