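import Pool.Agent.Q81.SR.Basic

/-!
`x² + y² p + z² q` is not of the form `Q₁R₁ + Q₂R₂` with all `Qᵢ, Rᵢ` of degree at most two,
over any field. Variables: `X 0 = x`, `X 1 = y`, `X 2 = z`, `X 3 = p`, `X 4 = q`.
-/

namespace Pool.Agent.Q81.SR

open MvPolynomial

variable {K : Type*} [Field K]

/-- The polynomial `x² + y² p + z² q`. -/
noncomputable def P0 (K : Type*) [Field K] : MvPolynomial (Fin 5) K :=
  X 0 ^ 2 + X 1 ^ 2 * X 3 + X 2 ^ 2 * X 4

lemma c3_lemma (β : Fin 5 → K) : ∃ y z p q : K, β 1 * y + β 2 * z + β 3 * p + β 4 * q = 0 ∧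
    y ^ 2 * p + z ^ 2 * q ≠ 0 := by
  by_cases h4 : β 4 = 0
  · by_cases h3 : β 3 = 0
    · by_cases h2 : β 2 = 0
      · by_cases h1 : β 1 = 0
        · exact ⟨1, 0, 1, 0, by rw [h1, h2, h3, h4]; ring, by norm_num⟩
        · exact ⟨0, 1, 0, 1, by rw [h2, h3, h4]; ring, by norm_num⟩
      · refine ⟨β 2, -β 1, 1, 0, by rw [h3, h4]; ring, ?_⟩
        have : β 2 ^ 2 ≠ 0 := pow_ne_zero 2 h2
        simpa using this
    · refine ⟨0, 1, -β 2 / β 3, 1, ?_, by norm_num⟩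
      rw [h4]; field_simp; ring
  · refine ⟨1, 0, 1, -(β 1 + β 3) / β 4, ?_, by norm_num⟩
    field_simp; ring

lemma finFive {M : Type*} [AddCommMonoid M] (f : Fin 5 → M) :
    ∑ i, f i = f 0 + f 1 + f 2 + f 3 + f 4 := by
  rw [Fin.sum_univ_five]

/-- Directions annihilated by both linear parts are zeros of the cubic form. -/
lemma fact1 {c e : K} {α β : Fin 5 → K} {A B : MvPolynomial (Fin 5) K}
    (hA : A.totalDegree ≤ 2) (hB : B.totalDegree ≤ 2)
    (h : P0 K = (C c + ∑ i, C (α i) * X i) * A + (C e + ∑ i, C (β i) * X i) * B)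
    (u : Fin 5 → K) (hα : ∑ i, α i * u i = 0) (hβ : ∑ i, β i * u i = 0) :
    u 1 ^ 2 * u 3 + u 2 ^ 2 * u 4 = 0 := by
  obtain ⟨φ, hX, hCC, hdeg⟩ : ∃ φ : MvPolynomial (Fin 5) K →+* Polynomial K,
      (∀ i, φ (X i) = Polynomial.C (u i) * Polynomial.X) ∧
      (∀ r, φ (C r) = Polynomial.C r) ∧ ∀ f, (φ f).natDegree ≤ f.totalDegree := by
    refine ⟨(aeval (fun i => Polynomial.C (u i) * Polynomial.X) :
      MvPolynomial (Fin 5) K →ₐ[K] Polynomial K), fun i => ?_, fun r => ?_, fun f => ?_⟩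
    · simp
    · simp
    · refine natDegree_aeval_le _ (fun i => ?_) f
      exact (Polynomial.natDegree_C_mul_le _ _).trans (by simp)
  have h1 := congrArg φ h
  have hl : ∀ (c : K) (α : Fin 5 → K), ∑ i, α i * u i = 0 →
      φ (C c + ∑ i, C (α i) * X i) = Polynomial.C c := by
    intro c α hα
    have h2 : φ (C c + ∑ i, C (α i) * X i) =
        Polynomial.C c + Polynomial.C (∑ i, α i * u i) * Polynomial.X := by
      rw [map_add, map_sum, hCC, map_sum, Finset.sum_mul]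
      congr 1
      refine Finset.sum_congr rfl fun i _ => ?_
      rw [map_mul, hCC, hX, Polynomial.C_mul]
      ring
    rw [h2, hα]; simp
  have hP : φ (P0 K) = Polynomial.C (u 0 ^ 2) * Polynomial.X ^ 2 +
      Polynomial.C (u 1 ^ 2 * u 3 + u 2 ^ 2 * u 4) * Polynomial.X ^ 3 := by
    unfold P0
    rw [map_add, map_add, map_mul, map_mul, map_pow, map_pow, map_pow, hX, hX, hX, hX, hX]
    simp only [Polynomial.C_add, Polynomial.C_mul, Polynomial.C_pow]
    ring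
  rw [map_add, map_mul, map_mul, hl c α hα, hl e β hβ, hP] at h1
  have h2 := congrArg (fun p => Polynomial.coeff p 3) h1
  have hA3 : (φ A).coeff 3 = 0 := Polynomial.coeff_eq_zero_of_natDegree_lt
    (lt_of_le_of_lt ((hdeg A).trans hA) (by norm_num))
  have hB3 : (φ B).coeff 3 = 0 := Polynomial.coeff_eq_zero_of_natDegree_lt
    (lt_of_le_of_lt ((hdeg B).trans hB) (by norm_num))
  simp only [Polynomial.coeff_add, Polynomial.coeff_C_mul, Polynomial.coeff_X_pow, hA3, hB3] at h2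
  simpa using h2

/-- The coefficient of `x²` gives a constant combination of the two affine forms. -/
lemma fact2 {c e : K} {α β : Fin 5 → K} {A B : MvPolynomial (Fin 5) K}
    (hA : A.totalDegree ≤ 2) (hB : B.totalDegree ≤ 2)
    (h : P0 K = (C c + ∑ i, C (α i) * X i) * A + (C e + ∑ i, C (β i) * X i) * B)
    (hα : α 0 = 0) (hβ : β 0 = 0) :
    ∃ a b : K, a * c + b * e = 1 ∧ ∀ i, a * α i + b * β i = 0 := by
  have hconst : ∀ A : MvPolynomial (Fin 5) K, A.totalDegree ≤ 2 →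
      ∃ a : K, ((finSuccEquiv K 4) A).coeff 2 = C a := by
    intro A hA
    by_cases h0 : ((finSuccEquiv K 4) A).coeff 2 = 0
    · exact ⟨0, by rw [h0, C_0]⟩
    · have h1 := totalDegree_coeff_finSuccEquiv_add_le A 2 h0
      exact ⟨_, totalDegree_eq_zero_iff_eq_C.mp (by omega)⟩
  obtain ⟨a, ha⟩ := hconst A hA
  obtain ⟨b, hb⟩ := hconst B hB
  have hl : ∀ (c : K) (α : Fin 5 → K), α 0 = 0 →
      finSuccEquiv K 4 (C c + ∑ i, C (α i) * X i) =
        Polynomial.C (C c + ∑ i : Fin 4, C (α i.succ) * X i) := by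
    intro c α hα
    have hC : ∀ r : K, finSuccEquiv K 4 (C r) = Polynomial.C (C r) := by
      intro r; simp [finSuccEquiv_apply]
    rw [Fin.sum_univ_succ, hα, C_0, zero_mul, zero_add, map_add, map_sum, hC]
    simp only [map_mul, hC, finSuccEquiv_X_succ, map_add, map_sum]
  have h1 := congrArg (finSuccEquiv K 4) h
  rw [map_add, map_mul, map_mul, hl c α hα, hl e β hβ] at h1
  have hP : finSuccEquiv K 4 (P0 K) = Polynomial.X ^ 2 +
      Polynomial.C (X 0 ^ 2 * X 2 + X 1 ^ 2 * X 3) := by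
    unfold P0
    have e1 : (X 1 : MvPolynomial (Fin 5) K) = X (Fin.succ 0) := rfl
    have e2 : (X 2 : MvPolynomial (Fin 5) K) = X (Fin.succ 1) := rfl
    have e3 : (X 3 : MvPolynomial (Fin 5) K) = X (Fin.succ 2) := rfl
    have e4 : (X 4 : MvPolynomial (Fin 5) K) = X (Fin.succ 3) := rfl
    rw [e1, e2, e3, e4]
    simp only [map_add, map_mul, map_pow, finSuccEquiv_X_succ, finSuccEquiv_X_zero]
    ring
  rw [hP] at h1
  have h2 := congrArg (fun p => Polynomial.coeff p 2) h1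
  simp only [Polynomial.coeff_add, Polynomial.coeff_C_mul, Polynomial.coeff_X_pow, ha, hb,
    Polynomial.coeff_C] at h2
  norm_num at h2
  refine ⟨a, b, ?_, ?_⟩
  · have h3 := congrArg (fun p => eval (0 : Fin 4 → K) p) h2
    simp at h3
    linear_combination -h3
  · have h3 : ∀ w : Fin 4 → K, 1 = (c + ∑ i : Fin 4, α i.succ * w i) * a +
        (e + ∑ i : Fin 4, β i.succ * w i) * b := by
      intro w
      have := congrArg (fun p => eval w p) h2
      simpa using this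
    have h4 : ∀ i : Fin 4, a * α i.succ + b * β i.succ = 0 := by
      intro i
      have h5 := h3 0
      have h6 := h3 (Pi.single i 1)
      simp [Pi.single_apply] at h5 h6
      linear_combination -h6 + h5
    intro i
    refine Fin.cases ?_ h4 i
    rw [hα, hβ]; ring

lemma caseI {l1 l2 A B : MvPolynomial (Fin 5) K} (h1 : l1.totalDegree ≤ 1)
    (h2 : l2.totalDegree ≤ 1) (hA : A.totalDegree ≤ 2) (hB : B.totalDegree ≤ 2) :
    P0 K ≠ l1 * A + l2 * B := by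
  intro h
  obtain ⟨c, α, rfl⟩ := affine_form l1 h1
  obtain ⟨e, β, rfl⟩ := affine_form l2 h2
  have key := fact1 hA hB h
  by_cases hα : α 0 = 0
  · by_cases hβ : β 0 = 0
    · obtain ⟨a, b, hab, hlin⟩ := fact2 hA hB h hα hβ
      by_cases ha : a = 0
      · have hb : b ≠ 0 := by rintro rfl; rw [ha] at hab; simp at hab
        obtain ⟨y, z, p, q, h3, h4⟩ := c3_lemma α
        apply h4
        have h5 := key ![0, y, z, p, q] ?_ ?_
        · simpa using h5
        · rw [finFive]; simp; linear_combination h3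
        · rw [finFive]; simp
          have h6 : ∀ i, β i = 0 := fun i => by
            have := hlin i
            rw [ha, zero_mul, zero_add] at this
            exact (mul_eq_zero.mp this).resolve_left hb
          simp [h6]
      · obtain ⟨y, z, p, q, h3, h4⟩ := c3_lemma β
        apply h4
        have h5 := key ![0, y, z, p, q] ?_ ?_
        · simpa using h5
        · rw [finFive]; simp
          apply mul_left_cancel₀ ha
          linear_combination y * hlin 1 + z * hlin 2 + p * hlin 3 + q * hlin 4 - b * h3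
        · rw [finFive]; simp; linear_combination h3
    · obtain ⟨y, z, p, q, h3, h4⟩ := c3_lemma (fun i => β 0 * α i - α 0 * β i)
      apply h4
      have h5 := key ![-(β 1 * y + β 2 * z + β 3 * p + β 4 * q) / β 0, y, z, p, q] ?_ ?_
      · simpa using h5
      · rw [finFive]; simp
        apply mul_left_cancel₀ hβ
        field_simp
        linear_combination h3
      · rw [finFive]; simp
        field_simp
        ring
  · obtain ⟨y, z, p, q, h3, h4⟩ := c3_lemma (fun i => β 0 * α i - α 0 * β i)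
    apply h4
    have h5 := key ![-(α 1 * y + α 2 * z + α 3 * p + α 4 * q) / α 0, y, z, p, q] ?_ ?_
    · simpa using h5
    · rw [finFive]; simp
      field_simp
      ring
    · rw [finFive]; simp
      apply mul_left_cancel₀ hα
      field_simp
      linear_combination -h3

/-- The ring `K[p][q]`. -/
abbrev DD (K : Type*) [Field K] := Polynomial (Polynomial K)

/-- Constants in `K[p][q]`. -/
noncomputable def cc (K : Type*) [Field K] : K →+* DD K :=
  (Polynomial.C : Polynomial K →+* DD K).comp Polynomial.C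

/-- The value at `(0,0,0,p,q)` of an affine form. -/
noncomputable def kk (c : K) (a : Fin 5 → K) : DD K :=
  cc K c + cc K (a 3) * Polynomial.C Polynomial.X + cc K (a 4) * Polynomial.X

/-- The `(x,y,z)`-part of an affine form. -/
noncomputable def vv (a : Fin 5 → K) : Fin 3 → DD K := ![cc K (a 0), cc K (a 1), cc K (a 2)]

lemma aniso {v : Fin 3 → DD K}
    (h : v 0 ^ 2 + Polynomial.C Polynomial.X * v 1 ^ 2 + Polynomial.X * v 2 ^ 2 = 0) : v = 0 := by
  obtain ⟨h0, h1, h2⟩ := aniso_three (Polynomial.X : Polynomial K) (fun a b => aniso_two) h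
  funext i
  fin_cases i
  · exact h0
  · exact h1
  · exact h2

lemma exists_hom (v : Fin 3 → DD K) (T : DD K) : ∃ φ : MvPolynomial (Fin 5) K →+* DD K,
    (∀ (c : K) (a : Fin 5 → K), φ (C c + ∑ i, C (a i) * X i) = kk c a + (vv a ⬝ᵥ v) * T) ∧
    φ (P0 K) = T ^ 2 * (v 0 ^ 2 + Polynomial.C Polynomial.X * v 1 ^ 2 +
      Polynomial.X * v 2 ^ 2) := by
  obtain ⟨φ, h0, h1, h2, h3, h4, hC⟩ : ∃ φ : MvPolynomial (Fin 5) K →+* DD K,
      φ (X 0) = T * v 0 ∧ φ (X 1) = T * v 1 ∧ φ (X 2) = T * v 2 ∧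
      φ (X 3) = Polynomial.C Polynomial.X ∧ φ (X 4) = Polynomial.X ∧ ∀ c, φ (C c) = cc K c := by
    refine ⟨eval₂Hom (cc K) ![T * v 0, T * v 1, T * v 2, Polynomial.C Polynomial.X,
      Polynomial.X], ?_, ?_, ?_, ?_, ?_, ?_⟩
    · simp
    · simp
    · simp
    · simp
    · simp
    · intro c; simp
  refine ⟨φ, fun c a => ?_, ?_⟩
  · rw [finFive]
    simp only [map_add, map_mul, hC, h0, h1, h2, h3, h4]
    unfold kk vv
    rw [dotProduct, Fin.sum_univ_three]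
    simp
    ring
  · unfold P0
    simp only [map_add, map_mul, map_pow, h0, h1, h2, h3, h4]
    ring

lemma caseII {a b c d α β γ δ : MvPolynomial (Fin 5) K} (ha : a.totalDegree ≤ 1)
    (hb : b.totalDegree ≤ 1) (hc : c.totalDegree ≤ 1) (hd : d.totalDegree ≤ 1)
    (hα : α.totalDegree ≤ 1) (hβ : β.totalDegree ≤ 1) (hγ : γ.totalDegree ≤ 1)
    (hδ : δ.totalDegree ≤ 1) :
    P0 K ≠ (a * b + α) * (d * c + β) - (a * c + γ) * (d * b + δ) := by
  intro h
  obtain ⟨a0, av, rfl⟩ := affine_form a ha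
  obtain ⟨b0, bv, rfl⟩ := affine_form b hb
  obtain ⟨c0, cv, rfl⟩ := affine_form c hc
  obtain ⟨d0, dv, rfl⟩ := affine_form d hd
  obtain ⟨α0, αv, rfl⟩ := affine_form α hα
  obtain ⟨β0, βv, rfl⟩ := affine_form β hβ
  obtain ⟨γ0, γv, rfl⟩ := affine_form γ hγ
  obtain ⟨δ0, δv, rfl⟩ := affine_form δ hδ
  have key : ∀ (v : Fin 3 → DD K) (T : DD K),
      T ^ 2 * (v 0 ^ 2 + Polynomial.C Polynomial.X * v 1 ^ 2 + Polynomial.X * v 2 ^ 2) =
      ((kk a0 av + (vv av ⬝ᵥ v) * T) * (kk b0 bv + (vv bv ⬝ᵥ v) * T) +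
        (kk α0 αv + (vv αv ⬝ᵥ v) * T)) *
      ((kk d0 dv + (vv dv ⬝ᵥ v) * T) * (kk c0 cv + (vv cv ⬝ᵥ v) * T) +
        (kk β0 βv + (vv βv ⬝ᵥ v) * T)) -
      ((kk a0 av + (vv av ⬝ᵥ v) * T) * (kk c0 cv + (vv cv ⬝ᵥ v) * T) +
        (kk γ0 γv + (vv γv ⬝ᵥ v) * T)) *
      ((kk d0 dv + (vv dv ⬝ᵥ v) * T) * (kk b0 bv + (vv bv ⬝ᵥ v) * T) +
        (kk δ0 δv + (vv δv ⬝ᵥ v) * T)) := by
    intro v T
    obtain ⟨φ, h1, h2⟩ := exists_hom v T
    have h3 := congrArg φ h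
    simp only [map_sub, map_mul] at h3
    rw [map_add φ (_ * _) _, map_add φ (_ * _) _, map_add φ (_ * _) _, map_add φ (_ * _) _] at h3
    simp only [map_mul φ (C _ + _) _, h1, h2] at h3
    exact h3
  clear h
  generalize kk a0 av = A0 at key
  generalize kk b0 bv = B0 at key
  generalize kk c0 cv = C0 at key
  generalize kk d0 dv = D0 at key
  generalize kk α0 αv = E0 at key
  generalize kk β0 βv = F0 at key
  generalize kk γ0 γv = G0 at key
  generalize kk δ0 δv = H0 at key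
  generalize vv av = A1 at key
  generalize vv bv = B1 at key
  generalize vv cv = C1 at key
  generalize vv dv = D1 at key
  generalize vv αv = E1 at key
  generalize vv βv = F1 at key
  generalize vv γv = G1 at key
  generalize vv δv = H1 at key
  have coeffs : ∀ v : Fin 3 → DD K,
      (A0 * B0 + E0) * (D0 * C0 + F0) - (A0 * C0 + G0) * (D0 * B0 + H0) = 0 ∧
      (A0 * B0 + E0) * (D0 * (C1 ⬝ᵥ v) + C0 * (D1 ⬝ᵥ v) + (F1 ⬝ᵥ v)) +
      (D0 * C0 + F0) * (A0 * (B1 ⬝ᵥ v) + B0 * (A1 ⬝ᵥ v) + (E1 ⬝ᵥ v)) -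
      (A0 * C0 + G0) * (D0 * (B1 ⬝ᵥ v) + B0 * (D1 ⬝ᵥ v) + (H1 ⬝ᵥ v)) -
      (D0 * B0 + H0) * (A0 * (C1 ⬝ᵥ v) + C0 * (A1 ⬝ᵥ v) + (G1 ⬝ᵥ v)) = 0 ∧
      W (A0 * B0 + E0) (A0 * C0 + G0) (D0 * B0 + H0) (D0 * C0 + F0)
        (A0 * (B1 ⬝ᵥ v) + B0 * (A1 ⬝ᵥ v) + (E1 ⬝ᵥ v))
        (A0 * (C1 ⬝ᵥ v) + C0 * (A1 ⬝ᵥ v) + (G1 ⬝ᵥ v))
        (D0 * (B1 ⬝ᵥ v) + B0 * (D1 ⬝ᵥ v) + (H1 ⬝ᵥ v))
        (D0 * (C1 ⬝ᵥ v) + C0 * (D1 ⬝ᵥ v) + (F1 ⬝ᵥ v))
        (A1 ⬝ᵥ v) (B1 ⬝ᵥ v) (C1 ⬝ᵥ v) (D1 ⬝ᵥ v) -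
        (v 0 ^ 2 + Polynomial.C Polynomial.X * v 1 ^ 2 + Polynomial.X * v 2 ^ 2) = 0 := by
    intro v
    apply quartic_coeffs (c3 :=
      (A0 * (B1 ⬝ᵥ v) + B0 * (A1 ⬝ᵥ v) + (E1 ⬝ᵥ v)) * ((D1 ⬝ᵥ v) * (C1 ⬝ᵥ v)) +
      (D0 * (C1 ⬝ᵥ v) + C0 * (D1 ⬝ᵥ v) + (F1 ⬝ᵥ v)) * ((A1 ⬝ᵥ v) * (B1 ⬝ᵥ v)) -
      (A0 * (C1 ⬝ᵥ v) + C0 * (A1 ⬝ᵥ v) + (G1 ⬝ᵥ v)) * ((D1 ⬝ᵥ v) * (B1 ⬝ᵥ v)) -
      (D0 * (B1 ⬝ᵥ v) + B0 * (D1 ⬝ᵥ v) + (H1 ⬝ᵥ v)) * ((A1 ⬝ᵥ v) * (C1 ⬝ᵥ v))) (c4 := 0)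
    intro T
    unfold W
    linear_combination -key v T
  have hdot : ∀ (x y : DD K) (P Q R v : Fin 3 → DD K),
      (fun i => x * P i + y * Q i + R i) ⬝ᵥ v = x * (P ⬝ᵥ v) + y * (Q ⬝ᵥ v) + (R ⬝ᵥ v) := by
    intro x y P Q R v
    simp only [dotProduct, Fin.sum_univ_three]
    ring
  obtain ⟨v, hv, hW⟩ := iso (A0 * B0 + E0) (A0 * C0 + G0) (D0 * B0 + H0) (D0 * C0 + F0)
    (fun i => A0 * B1 i + B0 * A1 i + E1 i) (fun i => A0 * C1 i + C0 * A1 i + G1 i)
    (fun i => D0 * B1 i + B0 * D1 i + H1 i) (fun i => D0 * C1 i + C0 * D1 i + F1 i)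
    A1 B1 C1 D1 (by linear_combination (coeffs 0).1) (fun v => by
      rw [hdot, hdot, hdot, hdot]
      exact (coeffs v).2.1)
  rw [hdot, hdot, hdot, hdot] at hW
  have h3 := (coeffs v).2.2
  rw [hW] at h3
  apply hv
  apply aniso
  linear_combination -h3

/-- `x² + y² p + z² q` has no representation `Q₁R₁ + Q₂R₂` with factors of degree at most two. -/
theorem lower {Q1 R1 Q2 R2 : MvPolynomial (Fin 5) K} (hQ1 : Q1.totalDegree ≤ 2)
    (hR1 : R1.totalDegree ≤ 2) (hQ2 : Q2.totalDegree ≤ 2) (hR2 : R2.totalDegree ≤ 2) :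
    P0 K ≠ Q1 * R1 - Q2 * R2 := by
  intro h
  have hP : (P0 K).totalDegree ≤ 3 := by
    unfold P0
    refine (totalDegree_add _ _).trans (max_le ((totalDegree_add _ _).trans (max_le ?_ ?_)) ?_)
    · exact (totalDegree_pow _ _).trans (by rw [totalDegree_X]; norm_num)
    · refine (totalDegree_mul _ _).trans ?_
      have := totalDegree_pow (X 1 : MvPolynomial (Fin 5) K) 2
      rw [totalDegree_X] at this ⊢
      omega
    · refine (totalDegree_mul _ _).trans ?_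
      have := totalDegree_pow (X 2 : MvPolynomial (Fin 5) K) 2
      rw [totalDegree_X] at this ⊢
      omega
  have h4 : homogeneousComponent 2 Q1 * homogeneousComponent 2 R1 =
      homogeneousComponent 2 Q2 * homogeneousComponent 2 R2 := by
    rw [← hc_mul 2 2 Q1 R1 hQ1 hR1, ← hc_mul 2 2 Q2 R2 hQ2 hR2, ← sub_eq_zero, ← map_sub, ← h]
    exact homogeneousComponent_eq_zero _ _ (by omega)
  have hlow : ∀ f g : MvPolynomial (Fin 5) K, f.totalDegree ≤ 2 → g.totalDegree ≤ 2 →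
      homogeneousComponent 2 f = homogeneousComponent 2 g → (f - g).totalDegree ≤ 1 := by
    intro f g hf hg hfg
    apply totalDegree_sub_hc
    · exact (totalDegree_sub _ _).trans (max_le hf hg)
    · rw [map_sub, hfg, sub_self]
  have hCm : ∀ (l : K) (f : MvPolynomial (Fin 5) K), f.totalDegree ≤ 2 →
      (C l * f).totalDegree ≤ 2 ∧
      homogeneousComponent 2 (C l * f) = C l * homogeneousComponent 2 f := by
    intro l f hf
    refine ⟨(totalDegree_mul _ _).trans (by rw [totalDegree_C]; omega), ?_⟩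
    rw [C_mul', map_smul, C_mul']
  rcases four (homogeneousComponent_isHomogeneous 2 Q1) (homogeneousComponent_isHomogeneous 2 R1)
    (homogeneousComponent_isHomogeneous 2 Q2) (homogeneousComponent_isHomogeneous 2 R2) h4 with
    ⟨l, ⟨h5, h6⟩ | ⟨h5, h6⟩⟩ | ⟨l, ⟨h5, h6⟩ | ⟨h5, h6⟩⟩ | ⟨a, b, c, d, ha, hb, hc, hd, h5, h6, h7, h8⟩
  · -- Q1 = l R2, Q2 = l R1
    rw [← (hCm l _ hR2).2] at h5
    rw [← (hCm l _ hR1).2] at h6
    apply caseI (hlow _ _ hQ1 (hCm l _ hR2).1 h5) (hlow _ _ hQ2 (hCm l _ hR1).1 h6) hR1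
      (B := -R2) (by rw [totalDegree_neg]; exact hR2)
    rw [h]; ring
  · -- R2 = l Q1, R1 = l Q2
    rw [← (hCm l _ hQ1).2] at h5
    rw [← (hCm l _ hQ2).2] at h6
    apply caseI (hlow _ _ hR1 (hCm l _ hQ2).1 h6) (hlow _ _ hR2 (hCm l _ hQ1).1 h5) hQ1
      (B := -Q2) (by rw [totalDegree_neg]; exact hQ2)
    rw [h]; ring
  · -- Q1 = l Q2, R2 = l R1
    rw [← (hCm l _ hQ2).2] at h5
    rw [← (hCm l _ hR1).2] at h6
    apply caseI (hlow _ _ hQ1 (hCm l _ hQ2).1 h5) (hlow _ _ hR2 (hCm l _ hR1).1 h6) hR1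
      (B := -Q2) (by rw [totalDegree_neg]; exact hQ2)
    rw [h]; ring
  · -- Q2 = l Q1, R1 = l R2
    rw [← (hCm l _ hQ1).2] at h5
    rw [← (hCm l _ hR2).2] at h6
    apply caseI (hlow _ _ hR1 (hCm l _ hR2).1 h6) (hlow _ _ hQ2 (hCm l _ hQ1).1 h5) hQ1
      (B := -R2) (by rw [totalDegree_neg]; exact hR2)
    rw [h]; ring
  · have hprod : ∀ a b : MvPolynomial (Fin 5) K, a.IsHomogeneous 1 → b.IsHomogeneous 1 →
        (a * b).totalDegree ≤ 2 ∧ homogeneousComponent 2 (a * b) = a * b := by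
      intro a b ha hb
      have h1 := (ha.mul hb)
      refine ⟨h1.totalDegree_le, ?_⟩
      rw [homogeneousComponent_of_mem h1]
      simp
    have e1 := hlow Q1 (a * b) hQ1 (hprod a b ha hb).1 (by rw [(hprod a b ha hb).2, h5])
    have e2 := hlow Q2 (a * c) hQ2 (hprod a c ha hc).1 (by rw [(hprod a c ha hc).2, h6])
    have e3 := hlow R2 (d * b) hR2 (hprod d b hd hb).1 (by rw [(hprod d b hd hb).2, h7])
    have e4 := hlow R1 (d * c) hR1 (hprod d c hd hc).1 (by rw [(hprod d c hd hc).2, h8])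
    apply caseII ha.totalDegree_le hb.totalDegree_le hc.totalDegree_le hd.totalDegree_le e1 e4 e2 e3
    rw [h]; ring

end Pool.Agent.Q81.SR
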